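import Mathlib
import Pool.Agent.H9.BowlDefs
import Pool.Agent.H9.BowlProof

/-! MP_eb4cdf_pr, Q1: the bowl-shape statement is false, already for `n = 2` jobs and `m = 3`
stations, with unlimited buffers, with manufacturing blocking for every buffer size, and with
communications blocking for every buffer size `b ≥ 1`. -/

namespace Pool.Agent.Results.MP_eb4cdf_pr.Disproof

open Bowl MeasureTheory

theorem result :
    ¬ Q1 ∧
    ∃ ν : Measure ℝ, IsProbabilityMeasure ν ∧ (∀ᵐ x ∂ν, 0 ≤ x) ∧
      Integrable (fun x : ℝ => x) ν ∧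
      ∀ r : Regime, r ≠ .communications 0 →
        (∀ s : Fin 3 → ℝ, IsAlloc s → BowlShaped s →
          ∃ s' : Fin 3 → ℝ, IsAlloc s' ∧ expMakespan r ν 2 3 s' < expMakespan r ν 2 3 s) ∧
        ¬ ∃ s : Fin 3 → ℝ, IsOptimal r ν 2 3 s ∧ BowlShaped s := by
  constructor
  · intro h
    obtain ⟨s, hs, hb⟩ := h 2 3 (by norm_num) (by norm_num) law inferInstance law_nonneg law_int
      .unlimited
    exact absurd (hs.2 sStar sStar_alloc) (not_le.mpr (main _ (by simp) s hs.1 hb))
  · refine ⟨law, inferInstance, law_nonneg, law_int, fun r hr => ⟨?_, ?_⟩⟩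
    · intro s hs hb
      exact ⟨sStar, sStar_alloc, main r hr s hs hb⟩
    · rintro ⟨s, hs, hb⟩
      exact absurd (hs.2 sStar sStar_alloc) (not_le.mpr (main r hr s hs.1 hb))

end Pool.Agent.Results.MP_eb4cdf_pr.Disproof
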